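import Pool.Agent.H140.RamseyNice

/-!
# A finite family with an oriented forest that is not `k`-nice for large `k`

Negative answer to Q1: there is a finite family of oriented graphs, one of them an oriented forest,
that fails to be `k`-nice for every `k ≥ 38`.
-/

set_option autoImplicit false

namespace Pool.Agent.Results.MP_a09a01_co.OrientedNotNice

open Pool.Agent.H140.RamseyNice

/-- It is not true that every finite family of oriented graphs with a member that is an oriented
forest is `k`-nice for all large `k`; indeed some such family has `p_k ≤ 5k+1 < 5k+2 ≤ q_k` for all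
`k ≥ 38`. -/
theorem result :
    (¬ ∀ (ι : Type) (_ : Finite ι) (m : ι → ℕ) (F : ∀ i, OGraph (m i)),
      (∃ i, (F i).graph.IsAcyclic) → ∃ k0 : ℕ, ∀ k : ℕ, k0 ≤ k → Nice F k) ∧
    (∃ (ι : Type) (_ : Finite ι) (m : ι → ℕ) (F : ∀ i, OGraph (m i)),
      (∃ i, (F i).graph.IsAcyclic) ∧ ∀ k : ℕ, 38 ≤ k →
        (∀ n ∈ pSet F k, n ≤ 5 * k + 1) ∧ ∃ x ∈ qSet F k, 5 * k + 2 ≤ x) := by
  constructor
  · intro h
    obtain ⟨k0, hk0⟩ := h Idx finite_idx _ fam fam_forest
    exact fam_not_nice (k := k0 + 38) (by omega) (hk0 _ (by omega))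
  · exact ⟨Idx, finite_idx, _, fam, fam_forest, fun k hk =>
      ⟨fun n hn => pSet_le hk hn, exists_qSet (by omega)⟩⟩

end Pool.Agent.Results.MP_a09a01_co.OrientedNotNice
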